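import Mathlib

set_option autoImplicit false

namespace Pool.Agent.H356Z.RSum

open Finset

/-- The symmetric grid-like set: columns of width three, plus a band around the seam. -/
noncomputable def gridSet (p t m : ℕ) : Finset (ZMod p) :=
  ((Finset.Icc (-(m:ℤ)) m ×ˢ Finset.Icc (-1:ℤ) 1).image
      (fun q : ℤ × ℤ => ((q.1 * t + q.2 : ℤ) : ZMod p))) ∪
    ((Finset.Icc ((m:ℤ) * t) ((p:ℤ) - m * t)).image (fun x : ℤ => (x : ZMod p)))

def sums (p t : ℕ) : Finset (ZMod p) :=
  ({0, 1, -1, (t:ℤ), -(t:ℤ)} : Finset ℤ).image (fun x : ℤ => (x : ZMod p))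

lemma cast_inj {p : ℕ} {x y : ℤ} (h : |x - y| < p) (e : (x : ZMod p) = y) : x = y := by
  have h1 : (p:ℤ) ∣ y - x := (ZMod.intCast_eq_intCast_iff_dvd_sub x y p).1 e
  have h2 : y - x = 0 := Int.eq_zero_of_abs_lt_dvd h1 (by rwa [abs_sub_comm])
  omega

lemma mem_col {p t m : ℕ} (j e : ℤ) (hj1 : -(m:ℤ) ≤ j) (hj2 : j ≤ m) (he1 : -1 ≤ e) (he2 : e ≤ 1)
    {a : ZMod p} (ha : a = ((j * t + e : ℤ) : ZMod p)) : a ∈ gridSet p t m := by
  unfold gridSet
  refine Finset.mem_union_left _ (Finset.mem_image.2 ⟨(j, e), ?_, ha.symm⟩)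
  simp [hj1, hj2, he1, he2]

lemma mem_band {p t m : ℕ} (x : ℤ) (h1 : (m:ℤ) * t ≤ x) (h2 : x ≤ (p:ℤ) - m * t)
    {a : ZMod p} (ha : a = (x : ZMod p)) : a ∈ gridSet p t m := by
  unfold gridSet
  exact Finset.mem_union_right _ (Finset.mem_image.2 ⟨x, by simp [h1, h2], ha.symm⟩)

lemma neg_mem {p t m : ℕ} {a : ZMod p} (ha : a ∈ gridSet p t m) : -a ∈ gridSet p t m := by
  unfold gridSet at ha
  rcases Finset.mem_union.1 ha with h | h
  · obtain ⟨⟨j, e⟩, hq, rfl⟩ := Finset.mem_image.1 h
    simp only [Finset.mem_product, Finset.mem_Icc] at hq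
    exact mem_col (-j) (-e) (by omega) (by omega) (by omega) (by omega) (by push_cast; ring)
  · obtain ⟨x, hx, rfl⟩ := Finset.mem_image.1 h
    simp only [Finset.mem_Icc] at hx
    exact mem_band (p - x) (by omega) (by omega) (by push_cast; simp)

/-- Each point of the set has three of its four grid neighbours in the set. -/
lemma three_nbrs {p t m : ℕ} (ht : 2 ≤ t) (hm : 1 ≤ m) (hp : 2 * m * t + 2 * t ≤ p) {a : ZMod p}
    (ha : a ∈ gridSet p t m) :
    (a + t ∈ gridSet p t m ∧ a - t ∈ gridSet p t m ∧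
        (a + 1 ∈ gridSet p t m ∨ a - 1 ∈ gridSet p t m)) ∨
      (a + 1 ∈ gridSet p t m ∧ a - 1 ∈ gridSet p t m ∧
        (a + t ∈ gridSet p t m ∨ a - t ∈ gridSet p t m)) := by
  have hp' : 2 * ((m:ℤ) * t) + 2 * t ≤ p := by
    have : ((2 * m * t + 2 * t : ℕ) : ℤ) ≤ p := by exact_mod_cast hp
    push_cast at this; linarith
  have ht' : (2:ℤ) ≤ t := by exact_mod_cast ht
  have hm' : (1:ℤ) ≤ m := by exact_mod_cast hm
  have h0 := ha
  unfold gridSet at h0
  rcases Finset.mem_union.1 h0 with h | h
  · obtain ⟨⟨j, e⟩, hq, rfl⟩ := Finset.mem_image.1 h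
    simp only [Finset.mem_product, Finset.mem_Icc] at hq
    left
    refine ⟨?_, ?_, ?_⟩
    · by_cases hj : j < m
      · exact mem_col (j + 1) e (by omega) (by omega) (by omega) (by omega) (by push_cast; ring)
      · have hj' : j = m := by omega
        subst hj'
        exact mem_band (m * t + t + e) (by omega) (by omega) (by push_cast; ring)
    · by_cases hj : -(m:ℤ) < j
      · exact mem_col (j - 1) e (by omega) (by omega) (by omega) (by omega) (by push_cast; ring)
      · have hj' : j = -(m:ℤ) := by omega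
        subst hj'
        exact mem_band (p - m * t - t + e) (by omega) (by omega) (by push_cast; simp; ring)
    · by_cases he : e < 1
      · left
        exact mem_col j (e + 1) (by omega) (by omega) (by omega) (by omega) (by push_cast; ring)
      · right
        exact mem_col j (e - 1) (by omega) (by omega) (by omega) (by omega) (by push_cast; ring)
  · obtain ⟨x, hx, rfl⟩ := Finset.mem_image.1 h
    simp only [Finset.mem_Icc] at hx
    right
    refine ⟨?_, ?_, ?_⟩
    · by_cases hx' : x < p - m * t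
      · exact mem_band (x + 1) (by omega) (by omega) (by push_cast; ring)
      · have : x = p - m * t := by omega
        subst this
        exact mem_col (-m) 1 (by omega) (by omega) (by omega) (by omega) (by push_cast; simp)
    · by_cases hx' : (m:ℤ) * t < x
      · exact mem_band (x - 1) (by omega) (by omega) (by push_cast; ring)
      · have : x = m * t := by omega
        subst this
        exact mem_col m (-1) (by omega) (by omega) (by omega) (by omega) (by push_cast; ring)
    · by_cases hx' : x + t ≤ p - m * t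
      · left
        exact mem_band (x + t) (by omega) (by omega) (by push_cast; ring)
      · right
        exact mem_band (x - t) (by omega) (by omega) (by push_cast; ring)

lemma card_sums {p t : ℕ} (ht : 2 ≤ t) (hp : 2 * t < p) : (sums p t).card = 5 := by
  have ht' : (2:ℤ) ≤ t := by exact_mod_cast ht
  have hp' : 2 * (t:ℤ) < p := by exact_mod_cast hp
  unfold sums
  rw [Finset.card_image_of_injOn]
  · rw [Finset.card_insert_of_notMem, Finset.card_insert_of_notMem, Finset.card_insert_of_notMem,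
      Finset.card_pair]
    · omega
    · simp only [Finset.mem_insert, Finset.mem_singleton]; omega
    · simp only [Finset.mem_insert, Finset.mem_singleton]; omega
    · simp only [Finset.mem_insert, Finset.mem_singleton]; omega
  · intro x hx y hy e
    simp only [Finset.coe_insert, Finset.coe_singleton, Set.mem_insert_iff,
      Set.mem_singleton_iff] at hx hy
    refine cast_inj ?_ e
    rw [abs_lt]; omega

lemma mem_sums {p t : ℕ} {s : ZMod p} (hs : s ∈ sums p t) :
    s = 0 ∨ s = 1 ∨ s = -1 ∨ s = t ∨ s = -t := by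
  unfold sums at hs
  obtain ⟨x, hx, rfl⟩ := Finset.mem_image.1 hs
  simp only [Finset.mem_insert, Finset.mem_singleton] at hx
  rcases hx with rfl | rfl | rfl | rfl | rfl <;> simp

/-- All allowed sums but at most one are realised at each point. -/
lemma miss_one {p t m : ℕ} (ht : 2 ≤ t) (hm : 1 ≤ m) (hp : 2 * m * t + 2 * t ≤ p) {a : ZMod p}
    (ha : a ∈ gridSet p t m) : ∃ s₀, ∀ s ∈ sums p t, s ≠ s₀ → s - a ∈ gridSet p t m := by
  have key : ∀ s : ZMod p, a - s ∈ gridSet p t m → s - a ∈ gridSet p t m := fun s h => by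
    have := neg_mem h
    rwa [neg_sub] at this
  rcases three_nbrs ht hm hp ha with ⟨h1, h2, h3 | h3⟩ | ⟨h1, h2, h3 | h3⟩
  · refine ⟨1, fun s hs hne => key s ?_⟩
    rcases mem_sums hs with rfl | rfl | rfl | rfl | rfl
    · simpa using ha
    · exact absurd rfl hne
    · simpa using h3
    · exact h2
    · simpa using h1
  · refine ⟨-1, fun s hs hne => key s ?_⟩
    rcases mem_sums hs with rfl | rfl | rfl | rfl | rfl
    · simpa using ha
    · exact h3
    · exact absurd rfl hne
    · exact h2
    · simpa using h1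
  · refine ⟨t, fun s hs hne => key s ?_⟩
    rcases mem_sums hs with rfl | rfl | rfl | rfl | rfl
    · simpa using ha
    · exact h2
    · simpa using h1
    · exact absurd rfl hne
    · simpa using h3
  · refine ⟨-t, fun s hs hne => key s ?_⟩
    rcases mem_sums hs with rfl | rfl | rfl | rfl | rfl
    · simpa using ha
    · exact h2
    · simpa using h1
    · exact h3
    · exact absurd rfl hne

/-- Row degree bound for the forbidden graph of all pairs with sum outside `S`. -/
lemma row_bound {G : Type*} [AddCommGroup G] [DecidableEq G] (A S : Finset G)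
    (h : ∀ a ∈ A, ∃ s₀, ∀ s ∈ S, s ≠ s₀ → s - a ∈ A) (x : G) (hx : x ∈ A) :
    (A.filter (fun b => x + b ∉ S)).card + (S.card - 1) ≤ A.card := by
  obtain ⟨s₀, hs⟩ := h x hx
  have h1 : ((S.erase s₀).image (fun s => s - x)) ⊆ A.filter (fun b => x + b ∈ S) := by
    intro b hb
    obtain ⟨s, hs', rfl⟩ := Finset.mem_image.1 hb
    have := Finset.mem_erase.1 hs'
    exact Finset.mem_filter.2 ⟨hs s this.2 this.1, by simpa using this.2⟩
  have h2 : ((S.erase s₀).image (fun s => s - x)).card = (S.erase s₀).card :=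
    Finset.card_image_of_injective _ (fun a b e => by simpa using e)
  have h3 := Finset.card_le_card h1
  have h4 : S.card - 1 ≤ (S.erase s₀).card := Finset.pred_card_le_card_erase
  have h5 := Finset.card_filter_add_card_filter_not (s := A) (fun b => x + b ∈ S)
  omega

lemma card_le {p t m : ℕ} (hp : 2 * m * t ≤ p) :
    (gridSet p t m).card + 2 * m * t ≤ 6 * m + 4 + p := by
  unfold gridSet
  have h1 := Finset.card_union_le ((Finset.Icc (-(m:ℤ)) m ×ˢ Finset.Icc (-1:ℤ) 1).image
      (fun q : ℤ × ℤ => ((q.1 * t + q.2 : ℤ) : ZMod p)))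
    ((Finset.Icc ((m:ℤ) * t) ((p:ℤ) - m * t)).image (fun x : ℤ => (x : ZMod p)))
  have h2 := Finset.card_image_le (s := Finset.Icc (-(m:ℤ)) m ×ˢ Finset.Icc (-1:ℤ) 1)
    (f := fun q : ℤ × ℤ => ((q.1 * t + q.2 : ℤ) : ZMod p))
  have h3 := Finset.card_image_le (s := Finset.Icc ((m:ℤ) * t) ((p:ℤ) - m * t))
    (f := fun x : ℤ => (x : ZMod p))
  rw [Finset.card_product, Int.card_Icc, Int.card_Icc] at h2
  rw [Int.card_Icc] at h3
  have hp' : 2 * ((m:ℤ) * t) ≤ p := by
    have : ((2 * m * t : ℕ) : ℤ) ≤ p := by exact_mod_cast hp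
    push_cast at this; linarith
  have e1 : ((m:ℤ) + 1 - -(m:ℤ)).toNat = 2 * m + 1 := by omega
  have e2 : ((1:ℤ) + 1 - -1).toNat = 3 := by decide
  have e3 : (((p:ℤ) - m * t + 1 - m * t).toNat : ℤ) = p - 2 * (m * t) + 1 := by omega
  rw [e1, e2] at h2
  have e4 : ((2 * m * t : ℕ) : ℤ) = 2 * ((m:ℤ) * t) := by push_cast; ring
  omega

lemma card_ge {p t m : ℕ} (ht : 2 ≤ t) (hp : 2 * m * t + 2 * t ≤ p) :
    t ≤ (gridSet p t m).card := by
  have hp' : 2 * ((m:ℤ) * t) + 2 * t ≤ p := by
    have : ((2 * m * t + 2 * t : ℕ) : ℤ) ≤ p := by exact_mod_cast hp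
    push_cast at this; linarith
  have hmt : (0:ℤ) ≤ m * t := by positivity
  have h1 : (Finset.Ico ((m:ℤ) * t) (m * t + t)).image (fun x : ℤ => (x : ZMod p)) ⊆
      gridSet p t m := by
    intro a ha
    obtain ⟨x, hx, rfl⟩ := Finset.mem_image.1 ha
    simp only [Finset.mem_Ico] at hx
    exact mem_band x (by omega) (by omega) rfl
  have h2 := Finset.card_le_card h1
  rw [Finset.card_image_of_injOn, Int.card_Ico] at h2
  · omega
  · intro x hx y hy e
    simp only [Finset.coe_Ico, Set.mem_Ico] at hx hy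
    refine cast_inj ?_ e
    rw [abs_lt]; omega

/-- The counterexample. -/
theorem main (β : ℝ) (hβ : β < 1) (n₀ : ℕ) :
    ∃ p : ℕ, p.Prime ∧ ∃ (A : Finset (ZMod p)) (F : Finset (ZMod p × ZMod p)) (d : ℕ),
      n₀ ≤ A.card ∧ (A.card : ℝ) < (1 - β) * (p : ℝ) / 2 ∧ d + 4 = A.card ∧ F ⊆ A ×ˢ A ∧
      (∀ x : ZMod p, (F.filter (fun q => q.1 = x)).card ≤ d) ∧
      (∀ x : ZMod p, (F.filter (fun q => q.2 = x)).card ≤ d) ∧
      ∀ B : Finset (ZMod p), B ⊆ A →
        (((A ×ˢ B) \ F).image (fun q => q.1 + q.2)).card ≤ 5 := by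
  set ε : ℝ := (1 - β) / 2 with hε
  have hε0 : 0 < ε := by rw [hε]; linarith
  obtain ⟨t, ht⟩ := exists_nat_gt (max (6 / ε) (max (n₀:ℝ) 4))
  have ht1 : 6 / ε < t := lt_of_le_of_lt (le_max_left _ _) ht
  have ht2 : n₀ < t := by
    have : (n₀:ℝ) < t := lt_of_le_of_lt ((le_max_left _ _).trans (le_max_right _ _)) ht
    exact_mod_cast this
  have ht3 : 4 < t := by
    have : (4:ℝ) < t := lt_of_le_of_lt ((le_max_right _ _).trans (le_max_right _ _)) ht
    exact_mod_cast this
  obtain ⟨N, hN⟩ := exists_nat_gt (2 * (4 + 4 * (t:ℝ)) / ε)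
  obtain ⟨p, hpN, hp⟩ := Nat.exists_infinite_primes (N + 4 * t + 1)
  set m : ℕ := (p - 2 * t) / (2 * t) with hm
  have hdiv := Nat.div_add_mod (p - 2 * t) (2 * t)
  have hmod := Nat.mod_lt (p - 2 * t) (show 2 * t > 0 by omega)
  rw [← hm] at hdiv
  have e1 : 2 * t * m = 2 * m * t := by ring
  have hp1 : 2 * m * t + 2 * t ≤ p := by omega
  have hp2 : p < 2 * m * t + 4 * t := by omega
  have hm1 : 1 ≤ m := by
    rcases Nat.eq_zero_or_pos m with h | h
    · rw [h] at hp2; omega
    · exact h
  set A := gridSet p t m with hA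
  set S := sums p t with hS
  have hSc : S.card = 5 := card_sums (by omega) (by omega)
  have hge : t ≤ A.card := card_ge (by omega) hp1
  have hle : A.card + 2 * m * t ≤ 6 * m + 4 + p := card_le (by omega)
  have hmiss : ∀ a ∈ A, ∃ s₀, ∀ s ∈ S, s ≠ s₀ → s - a ∈ A :=
    fun a ha => miss_one (by omega) hm1 hp1 ha
  refine ⟨p, hp, A, (A ×ˢ A).filter (fun q => q.1 + q.2 ∉ S), A.card - 4, by omega, ?_,
    by omega, Finset.filter_subset _ _, ?_, ?_, ?_⟩
  · have h1 : (A.card : ℝ) ≤ 6 * m + 4 + 4 * t := by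
      have : A.card ≤ 6 * m + 4 + 4 * t := by omega
      exact_mod_cast this
    have h2 : 2 * (m:ℝ) * t ≤ p := by
      have : 2 * m * t ≤ p := by omega
      exact_mod_cast this
    have h3 : 6 < ε * t := by
      rw [div_lt_iff₀ hε0] at ht1; linarith
    have h4 : 2 * (4 + 4 * (t:ℝ)) < ε * p := by
      rw [div_lt_iff₀ hε0] at hN
      have : (N:ℝ) ≤ p := by
        have : N ≤ p := by omega
        exact_mod_cast this
      nlinarith
    have hm0 : (0:ℝ) ≤ m := Nat.cast_nonneg m
    have h5 : 12 * (m:ℝ) ≤ ε * p := by nlinarith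
    have : (1 - β) * (p:ℝ) / 2 = ε * p := by rw [hε]; ring
    rw [this]; linarith
  · intro x
    by_cases hx : x ∈ A
    · have h1 := row_bound A S hmiss x hx
      have h2 : (((A ×ˢ A).filter (fun q => q.1 + q.2 ∉ S)).filter (fun q => q.1 = x)).card ≤
          (A.filter (fun b => x + b ∉ S)).card := by
        refine Finset.card_le_card_of_injOn (fun q => q.2) ?_ ?_
        · intro q hq
          simp only [Finset.coe_filter, Finset.mem_filter, Finset.mem_product,
            Set.mem_ofPred_eq] at hq ⊢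
          obtain ⟨⟨⟨_, h⟩, h'⟩, rfl⟩ := hq
          exact ⟨h, h'⟩
        · intro q hq q' hq' e
          simp only [Finset.coe_filter, Set.mem_ofPred_eq] at hq hq'
          exact Prod.ext (hq.2.trans hq'.2.symm) e
      omega
    · have : (((A ×ˢ A).filter (fun q => q.1 + q.2 ∉ S)).filter (fun q => q.1 = x)) = ∅ := by
        refine Finset.filter_eq_empty_iff.2 ?_
        intro q hq e
        simp only [Finset.mem_filter, Finset.mem_product] at hq
        exact hx (e ▸ hq.1.1)
      rw [this]; simp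
  · intro x
    by_cases hx : x ∈ A
    · have h1 := row_bound A S hmiss x hx
      have h2 : (((A ×ˢ A).filter (fun q => q.1 + q.2 ∉ S)).filter (fun q => q.2 = x)).card ≤
          (A.filter (fun b => x + b ∉ S)).card := by
        refine Finset.card_le_card_of_injOn (fun q => q.1) ?_ ?_
        · intro q hq
          simp only [Finset.coe_filter, Finset.mem_filter, Finset.mem_product,
            Set.mem_ofPred_eq] at hq ⊢
          obtain ⟨⟨⟨h, _⟩, h'⟩, rfl⟩ := hq
          exact ⟨h, by rwa [add_comm]⟩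
        · intro q hq q' hq' e
          simp only [Finset.coe_filter, Set.mem_ofPred_eq] at hq hq'
          exact Prod.ext e (hq.2.trans hq'.2.symm)
      omega
    · have : (((A ×ˢ A).filter (fun q => q.1 + q.2 ∉ S)).filter (fun q => q.2 = x)) = ∅ := by
        refine Finset.filter_eq_empty_iff.2 ?_
        intro q hq e
        simp only [Finset.mem_filter, Finset.mem_product] at hq
        exact hx (e ▸ hq.1.2)
      rw [this]; simp
  · intro B hB
    rw [← hSc]
    refine Finset.card_le_card ?_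
    intro s hs
    obtain ⟨q, hq, rfl⟩ := Finset.mem_image.1 hs
    simp only [Finset.mem_sdiff, Finset.mem_product, Finset.mem_filter, not_and, not_not] at hq
    exact hq.2 ⟨hq.1.1, hB hq.1.2⟩

end Pool.Agent.H356Z.RSum
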